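import Mathlib
import Pool.Agent.Results.MP_acbfbf_co.Inequality

/-!
# MP_d17fc5: weighted hook-length-two bias for bounded odd and distinct partitions

For every `L ≥ 1` and every `n`, `A_L(n) ≥ B_L(n)`. All quantities are defined by counting cells of
hook length `2` in the Young diagrams of the partitions of `n`.
-/

namespace Pool.Agent.Results.MP_d17fc5_co.FullAnswer

open Finset PowerSeries
open Pool.Agent.Results.MP_acbfbf_co.Inequality (poch pochNeg gauss gauss_two poch_constCoeff)

/-- The `i`-th largest part `λ_i` of the partition `p` (`i ≥ 1`), and `0` beyond the last part. -/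
def part {n : ℕ} (p : n.Partition) (i : ℕ) : ℕ := (p.parts.sort (· ≥ ·)).getD (i - 1) 0

/-- The `j`-th part `λ'_j` of the conjugate partition: the number of parts of `p` that are at
least `j` (`j ≥ 1`). -/
def conj {n : ℕ} (p : n.Partition) (j : ℕ) : ℕ := (p.parts.filter (j ≤ ·)).card

/-- The cells `(i, j)` of the Young diagram: `i, j ≥ 1` and `j ≤ λ_i`. -/
def cells {n : ℕ} (p : n.Partition) : Finset (ℕ × ℕ) :=
  (Icc 1 n ×ˢ Icc 1 n).filter fun c => c.2 ≤ part p c.1

/-- The hook length `h(i,j) = λ_i + λ'_j - i - j + 1`. -/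
def hook {n : ℕ} (p : n.Partition) (c : ℕ × ℕ) : ℤ :=
  (part p c.1 : ℤ) + (conj p c.2 : ℤ) - (c.1 : ℤ) - (c.2 : ℤ) + 1

/-- The number of cells of hook length `2`. -/
def hooks2 {n : ℕ} (p : n.Partition) : ℕ := ((cells p).filter fun c => hook p c = 2).card

theorem gc_list (l : List ℕ) (hl : l.Pairwise (· ≥ ·)) (i j : ℕ) (hj : 1 ≤ j) :
    j ≤ l.getD i 0 ↔ i + 1 ≤ (l.filter (fun x => decide (j ≤ x))).length := by
  induction l generalizing i with
  | nil => simp; omega
  | cons a t ih =>
    rw [List.pairwise_cons] at hl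
    have ih' := ih hl.2
    by_cases h : j ≤ a
    · rw [List.filter_cons_of_pos (by simpa using h), List.length_cons]
      cases i with
      | zero => simp [h]
      | succ i =>
        rw [List.getD_cons_succ, ih' i]
        omega
    · rw [List.filter_cons_of_neg (by simpa using h)]
      have h0 : t.filter (fun x => decide (j ≤ x)) = [] := by
        rw [List.filter_eq_nil_iff]
        intro x hx
        have := hl.1 x hx
        simp only [decide_eq_true_eq]
        omega
      rw [h0]
      cases i with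
      | zero => simp; omega
      | succ i =>
        rw [List.getD_cons_succ, ih' i, h0]
        simp

theorem gc {n : ℕ} (p : n.Partition) (i j : ℕ) (hi : 1 ≤ i) (hj : 1 ≤ j) :
    j ≤ part p i ↔ i ≤ conj p j := by
  unfold part conj
  rw [gc_list _ (Multiset.pairwise_sort _ _) _ _ hj]
  have h : (p.parts.filter (j ≤ ·)).card =
      ((p.parts.sort (· ≥ ·)).filter (fun x => decide (j ≤ x))).length := by
    conv_lhs => rw [← Multiset.sort_eq p.parts (· ≥ ·)]
    rw [Multiset.filter_coe, Multiset.coe_card]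
  rw [h]
  omega

theorem conj_succ {n : ℕ} (p : n.Partition) (v : ℕ) :
    conj p v = conj p (v + 1) + p.parts.count v := by
  unfold conj
  rw [← Multiset.card_replicate (p.parts.count v) v, ← Multiset.filter_eq, ← Multiset.card_add]
  congr 1
  have h := Multiset.filter_add_filter (v + 1 ≤ ·) (fun x => x = v) p.parts
  rw [Multiset.filter_congr (q := (v ≤ ·)) (s := p.parts) (p := fun a => v + 1 ≤ a ∨ a = v)] at h
  · rw [Multiset.filter_congr (q := fun _ => False) (s := p.parts)
      (p := fun a => v + 1 ≤ a ∧ a = v)] at h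
    · simp only [Multiset.filter_false, add_zero] at h
      rw [← h]
      congr 1
      refine Multiset.filter_congr fun x _ => ?_
      exact eq_comm
    · intro x _
      constructor
      · rintro ⟨h1, h2⟩
        omega
      · exact False.elim
  · intro x _
    omega

theorem conj_le {n : ℕ} (p : n.Partition) (v : ℕ) : conj p v ≤ n := by
  have h1 : conj p v ≤ p.parts.card := Multiset.card_le_card (Multiset.filter_le _ _)
  have h2 := Multiset.card_nsmul_le_sum (s := p.parts) (a := 1) fun x hx => p.parts_pos hx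
  rw [p.parts_sum, smul_eq_mul, mul_one] at h2
  omega

/-- A cell of hook length two has arm `0` and leg `1`, or arm `1` and leg `0`. -/
theorem hooks2_eq {n : ℕ} (p : n.Partition) :
    hooks2 p = (p.parts.toFinset.filter fun v => 2 ≤ p.parts.count v).card +
      (p.parts.toFinset.filter fun v => 2 ≤ v ∧ v - 1 ∉ p.parts).card := by
  have key : ((cells p).filter fun c => hook p c = 2) =
      (p.parts.toFinset.filter fun v => 2 ≤ p.parts.count v).image
        (fun v => (conj p v - 1, v)) ∪
      (p.parts.toFinset.filter fun v => 2 ≤ v ∧ v - 1 ∉ p.parts).image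
        (fun v => (conj p v, v - 1)) := by
    ext ⟨i, j⟩
    rw [mem_filter]
    unfold cells hook
    simp only [mem_filter, mem_product, mem_Icc, mem_union, mem_image,
      Multiset.mem_toFinset, Prod.mk.injEq]
    constructor
    · rintro ⟨⟨⟨⟨hi1, hi2⟩, hj1, hj2⟩, hj3⟩, hh⟩
      have hg := (gc p i j hi1 hj1).1 hj3
      have hg1 := gc p i (j + 1) hi1 (by omega)
      have hg2 := gc p i (j + 2) hi1 (by omega)
      have hc1 := conj_succ p j
      have hc2 : conj p (j + 1) = conj p (j + 2) + p.parts.count (j + 1) := conj_succ p (j + 1)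
      by_cases hA : part p i = j
      · left
        have h1 : ¬ i ≤ conj p (j + 1) := by
          rw [← hg1]
          omega
        refine ⟨j, ⟨?_, by omega⟩, by omega, rfl⟩
        rw [← Multiset.count_pos]
        omega
      · right
        have hB : part p i = j + 1 ∧ conj p j = i := by omega
        have h1 : i ≤ conj p (j + 1) := hg1.1 (by omega)
        have h2 : ¬ i ≤ conj p (j + 2) := by
          rw [← hg2]
          omega
        refine ⟨j + 1, ⟨?_, by omega, ?_⟩, by omega, by omega⟩
        · rw [← Multiset.count_pos]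
          omega
        · rw [← Multiset.count_eq_zero, Nat.add_sub_cancel]
          omega
    · rintro (⟨v, ⟨hv, hv2⟩, rfl, rfl⟩ | ⟨v, ⟨hv, hv2, hv3⟩, rfl, rfl⟩)
      · have hpos := p.parts_pos hv
        have hle := Nat.Partition.le_of_mem_parts hv
        have hc1 := conj_succ p v
        have hcn := conj_le p v
        have hg := gc p (conj p v - 1) v (by omega) (by omega)
        have hg1 := gc p (conj p v - 1) (v + 1) (by omega) (by omega)
        have h3 : part p (conj p v - 1) = v := by
          have h4 := hg.2 (by omega)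
          have h5 : ¬ v + 1 ≤ part p (conj p v - 1) := by
            rw [hg1]
            omega
          omega
        refine ⟨⟨⟨⟨by omega, by omega⟩, by omega, by omega⟩, by omega⟩, ?_⟩
        omega
      · have hle := Nat.Partition.le_of_mem_parts hv
        have hc0 := conj_succ p (v - 1)
        have hc1 := conj_succ p v
        have hcn := conj_le p v
        rw [← Multiset.count_pos] at hv
        rw [← Multiset.count_eq_zero] at hv3
        rw [Nat.sub_add_cancel (by omega)] at hc0
        have hg := gc p (conj p v) v (by omega) (by omega)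
        have hg1 := gc p (conj p v) (v + 1) (by omega) (by omega)
        have h3 : part p (conj p v) = v := by
          have h4 := hg.2 (by omega)
          have h5 : ¬ v + 1 ≤ part p (conj p v) := by
            rw [hg1]
            omega
          omega
        refine ⟨⟨⟨⟨by omega, by omega⟩, by omega, by omega⟩, by omega⟩, ?_⟩
        omega
  unfold hooks2
  rw [key, card_union_of_disjoint, card_image_of_injOn, card_image_of_injOn]
  · intro a ha b hb hab
    simp only [coe_filter, Set.mem_ofPred_eq, Prod.mk.injEq] at ha hb hab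
    omega
  · intro a ha b hb hab
    simp only [Prod.mk.injEq] at hab
    exact hab.2
  · rw [disjoint_left]
    rintro ⟨i, j⟩ h1 h2
    simp only [mem_filter, mem_image, Multiset.mem_toFinset, Prod.mk.injEq] at h1 h2
    obtain ⟨v, ⟨hv, hv2⟩, hi, rfl⟩ := h1
    obtain ⟨w, ⟨hw, hw2, hw3⟩, hi', hj'⟩ := h2
    rw [hj'] at hw3
    exact hw3 hv

/-- `a_2(L,m,n)`: the number of partitions of `n` into odd parts, all parts at most `2L-1`,
with exactly `m` cells of hook length `2`. -/
def a2 (L m n : ℕ) : ℕ :=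
  (univ.filter fun p : n.Partition =>
    (∀ x ∈ p.parts, Odd x ∧ x ≤ 2 * L - 1) ∧ hooks2 p = m).card

/-- `b_2(L,m,n)`: the number of partitions of `n` into distinct parts, all parts at most `L`,
with exactly `m` cells of hook length `2`. -/
def b2 (L m n : ℕ) : ℕ :=
  (univ.filter fun p : n.Partition =>
    (p.parts.Nodup ∧ ∀ x ∈ p.parts, x ≤ L) ∧ hooks2 p = m).card

/-- `A_L(n) = ∑_{m ≥ 0} C(m,2) a_2(L,m,n)`. -/
noncomputable def A (L n : ℕ) : ℕ := ∑ᶠ m : ℕ, m.choose 2 * a2 L m n

/-- `B_L(n) = ∑_{m ≥ 0} C(m,2) b_2(L,m,n)`. -/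
noncomputable def B (L n : ℕ) : ℕ := ∑ᶠ m : ℕ, m.choose 2 * b2 L m n

/-- The partitions of `n` into odd parts at most `2L-1`. -/
def oddP (L n : ℕ) : Finset n.Partition :=
  univ.filter fun p : n.Partition => ∀ x ∈ p.parts, Odd x ∧ x ≤ 2 * L - 1

/-- The partitions of `n` into distinct parts at most `L`. -/
def distP (L n : ℕ) : Finset n.Partition :=
  univ.filter fun p : n.Partition => p.parts.Nodup ∧ ∀ x ∈ p.parts, x ≤ L

theorem finsum_card {α : Type*} [DecidableEq α] (s : Finset α) (h : α → ℕ) :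
    ∑ᶠ m : ℕ, m.choose 2 * (s.filter fun a => h a = m).card = ∑ a ∈ s, (h a).choose 2 := by
  rw [finsum_eq_sum_of_support_subset (s := s.image h), Finset.sum_comp (fun m => m.choose 2) h]
  · refine Finset.sum_congr rfl fun m _ => ?_
    rw [smul_eq_mul, mul_comm]
  · intro m hm
    rw [Function.mem_support] at hm
    have h1 : (s.filter fun a => h a = m).card ≠ 0 := right_ne_zero_of_mul hm
    rw [Finset.card_ne_zero] at h1
    obtain ⟨a, ha⟩ := h1
    rw [mem_filter] at ha
    rw [coe_image]
    exact ⟨a, ha.1, ha.2⟩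

theorem A_eq (L n : ℕ) : A L n = ∑ p ∈ oddP L n, (hooks2 p).choose 2 := by
  unfold A a2
  rw [← finsum_card]
  unfold oddP
  simp_rw [filter_filter]

theorem B_eq (L n : ℕ) : B L n = ∑ p ∈ distP L n, (hooks2 p).choose 2 := by
  unfold B b2
  rw [← finsum_card]
  unfold distP
  simp_rw [filter_filter]

/-! ### The odd side -/

theorem count_sub (L n : ℕ) (M : Multiset ℕ) (hM : ∀ x ∈ M, Odd x ∧ x ≤ 2 * L - 1) :
    ((oddP L n).filter fun p => M ≤ p.parts).card =
      if M.sum ≤ n then (oddP L (n - M.sum)).card else 0 := by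
  split_ifs with hn
  · symm
    refine Finset.card_bij (fun q _ => (⟨q.parts + M, ?_, ?_⟩ : n.Partition)) ?_ ?_ ?_
    · intro i hi
      rcases Multiset.mem_add.1 hi with h | h
      · exact q.parts_pos h
      · exact (hM i h).1.pos
    · rw [Multiset.sum_add, q.parts_sum]
      omega
    · intro q hq
      unfold oddP at hq ⊢
      rw [mem_filter] at hq
      rw [mem_filter, mem_filter]
      refine ⟨⟨mem_univ _, ?_⟩, ?_⟩
      · intro x hx
        rcases Multiset.mem_add.1 hx with h | h
        · exact hq.2 x h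
        · exact hM x h
      · exact Multiset.le_add_left _ _
    · intro q _ q' _ h
      have h1 := congrArg Nat.Partition.parts h
      simp only at h1
      exact Nat.Partition.ext (add_right_cancel h1)
    · intro p hp
      unfold oddP at hp
      rw [mem_filter, mem_filter] at hp
      obtain ⟨⟨-, hp1⟩, hp2⟩ := hp
      refine ⟨⟨p.parts - M, ?_, ?_⟩, ?_, ?_⟩
      · intro i hi
        exact p.parts_pos (Multiset.mem_of_le (Multiset.sub_le_self _ _) hi)
      · have h1 : (p.parts - M).sum + M.sum = n := by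
          rw [← Multiset.sum_add, Multiset.sub_add_cancel hp2, p.parts_sum]
        omega
      · unfold oddP
        rw [mem_filter]
        refine ⟨mem_univ _, fun x hx => hp1 x (Multiset.mem_of_le (Multiset.sub_le_self _ _) hx)⟩
      · refine Nat.Partition.ext ?_
        exact Multiset.sub_add_cancel hp2
  · rw [Finset.card_eq_zero, Finset.filter_eq_empty_iff]
    intro p _ hp
    have h1 : (p.parts - M).sum + M.sum = n := by
      rw [← Multiset.sum_add, Multiset.sub_add_cancel hp, p.parts_sum]
    omega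

/-- The generating function of the partitions into odd parts at most `2L-1`. -/
noncomputable def P (L : ℕ) : PowerSeries ℚ := PowerSeries.mk fun n => ((oddP L n).card : ℚ)

theorem coeff_P_mul (L n : ℕ) (M : Multiset ℕ) (hM : ∀ x ∈ M, Odd x ∧ x ≤ 2 * L - 1) :
    coeff n (P L * X ^ M.sum) = (((oddP L n).filter fun p => M ≤ p.parts).card : ℚ) := by
  rw [count_sub L n M hM, coeff_mul_X_pow']
  split_ifs
  · rw [P, coeff_mk]
  · simp

theorem P_zero : P 0 = 1 := by
  ext n
  rw [P, coeff_mk, coeff_one]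
  split_ifs with h
  · subst h
    have : oddP 0 0 = univ := by
      unfold oddP
      rw [Finset.filter_eq_self]
      intro p _ x hx
      rw [Nat.Partition.partition_zero_parts] at hx
      simp at hx
    rw [this]
    simp
  · have : oddP 0 n = ∅ := by
      unfold oddP
      rw [Finset.filter_eq_empty_iff]
      intro p _ hp
      have h0 : p.parts = 0 := by
        rw [Multiset.eq_zero_iff_forall_notMem]
        intro x hx
        have h1 := (hp x hx).2
        have h2 := p.parts_pos hx
        omega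
      have h3 := p.parts_sum
      rw [h0, Multiset.sum_zero] at h3
      omega
    rw [this]
    simp

theorem P_succ (L : ℕ) : P (L + 1) * (1 - X ^ (1 + 2 * L)) = P L := by
  ext n
  rw [mul_sub, mul_one, map_sub]
  have h1 := coeff_P_mul (L + 1) n {1 + 2 * L} (by
    intro x hx
    rw [Multiset.mem_singleton] at hx
    subst hx
    exact ⟨⟨L, by ring⟩, by omega⟩)
  rw [Multiset.sum_singleton] at h1
  rw [h1, P, P, coeff_mk, coeff_mk]
  have h2 := Finset.card_filter_add_card_filter_not (s := oddP (L + 1) n)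
    (fun p => ({1 + 2 * L} : Multiset ℕ) ≤ p.parts)
  have h3 : (oddP (L + 1) n).filter (fun p => ¬ ({1 + 2 * L} : Multiset ℕ) ≤ p.parts) =
      oddP L n := by
    ext p
    unfold oddP
    simp only [mem_filter, mem_univ, true_and, Multiset.singleton_le]
    constructor
    · rintro ⟨h4, h5⟩ x hx
      obtain ⟨⟨k, hk⟩, h7⟩ := h4 x hx
      refine ⟨⟨k, hk⟩, ?_⟩
      have h8 : x ≠ 1 + 2 * L := by
        rintro rfl
        exact h5 hx
      omega
    · intro h4
      refine ⟨fun x hx => ⟨(h4 x hx).1, by have := (h4 x hx).2; omega⟩, fun h5 => ?_⟩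
      have := (h4 _ h5).2
      omega
  rw [h3] at h2
  rw [← h2]
  push_cast
  ring

theorem P_mul_poch (L : ℕ) : P L * poch 1 2 L = 1 := by
  induction L with
  | zero => rw [P_zero]; simp [poch]
  | succ L ih =>
    have h : poch 1 2 (L + 1) = poch 1 2 L * (1 - X ^ (1 + 2 * L)) := by
      unfold poch
      rw [Finset.prod_range_succ]
    rw [h, mul_comm (poch 1 2 L), ← mul_assoc, P_succ, ih]

theorem P_eq (L : ℕ) : P L = (poch 1 2 L)⁻¹ := by
  rw [PowerSeries.eq_inv_iff_mul_eq_one]
  · exact P_mul_poch L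
  · rw [poch_constCoeff 1 2 L one_pos]
    norm_num

theorem pairs_count (q : ℕ → Prop) [DecidablePred q] (N : ℕ) :
    ∑ j ∈ range N, ∑ i ∈ range j, (if q i ∧ q j then 1 else 0) =
      (((range N).filter q).card).choose 2 := by
  induction N with
  | zero => simp
  | succ N ih =>
    rw [Finset.sum_range_succ, ih, Finset.range_add_one, Finset.filter_insert]
    by_cases h : q N
    · rw [if_pos h, Finset.card_insert_of_notMem (by simp)]
      have h1 : ∑ i ∈ range N, (if q i ∧ q N then 1 else 0) = ((range N).filter q).card := by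
        rw [Finset.card_filter]
        refine Finset.sum_congr rfl fun i _ => ?_
        simp [h]
      rw [h1, Nat.choose_succ_succ' _ 1, Nat.choose_one_right]
      ring
    · rw [if_neg h]
      have h1 : ∑ i ∈ range N, (if q i ∧ q N then 1 else 0) = 0 := by
        refine Finset.sum_eq_zero fun i _ => ?_
        simp [h]
      rw [h1, add_zero]

/-- The lower bound for the number of pairs of hooks of length two, in a partition into odd
parts. -/
theorem hooks2_lower (L n : ℕ) (p : n.Partition) (hp : p ∈ oddP L n) :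
    (∑ i ∈ range (L - 1), (if ({1, 1, 2 * i + 3} : Multiset ℕ) ≤ p.parts then 1 else 0)) +
      ∑ j ∈ range (L - 1), ∑ i ∈ range j,
        (if ({2 * i + 3, 2 * j + 3} : Multiset ℕ) ≤ p.parts then 1 else 0) ≤
      (hooks2 p).choose 2 := by
  unfold oddP at hp
  rw [mem_filter] at hp
  have hp := hp.2
  have e1 : ∀ i, (({1, 1, 2 * i + 3} : Multiset ℕ) ≤ p.parts ↔
      (2 ≤ p.parts.count 1 ∧ 2 * i + 3 ∈ p.parts)) := by
    intro i
    rw [Multiset.le_iff_count]
    constructor
    · intro h
      have h1 := h 1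
      have h2 := h (2 * i + 3)
      simp only [Multiset.insert_eq_cons, Multiset.count_cons, Multiset.count_singleton] at h1 h2
      rw [← Multiset.count_pos]
      constructor
      · have : ¬ (1 = 2 * i + 3) := by omega
        simp only [this, if_false, if_true] at h1
        omega
      · simp only [if_true] at h2
        omega
    · rintro ⟨h1, h2⟩ a
      rw [← Multiset.count_pos] at h2
      simp only [Multiset.insert_eq_cons, Multiset.count_cons, Multiset.count_singleton]
      by_cases ha : a = 1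
      · subst ha
        have : ¬ (1 = 2 * i + 3) := by omega
        simp only [this, if_false, if_true]
        omega
      · by_cases hb : a = 2 * i + 3
        · subst hb
          simp only [ha, if_false, if_true]
          omega
        · simp [ha, hb]
  have e2 : ∀ i j, i < j → (({2 * i + 3, 2 * j + 3} : Multiset ℕ) ≤ p.parts ↔
      (2 * i + 3 ∈ p.parts ∧ 2 * j + 3 ∈ p.parts)) := by
    intro i j hij
    rw [Multiset.le_iff_count]
    constructor
    · intro h
      have h1 := h (2 * i + 3)
      have h2 := h (2 * j + 3)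
      simp only [Multiset.insert_eq_cons, Multiset.count_cons, Multiset.count_singleton] at h1 h2
      rw [← Multiset.count_pos, ← Multiset.count_pos]
      constructor
      · simp only [if_true] at h1
        omega
      · simp only [if_true] at h2
        omega
    · rintro ⟨h1, h2⟩ a
      rw [← Multiset.count_pos] at h1 h2
      simp only [Multiset.insert_eq_cons, Multiset.count_cons, Multiset.count_singleton]
      by_cases ha : a = 2 * i + 3
      · subst ha
        have : ¬ (2 * i + 3 = 2 * j + 3) := by omega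
        simp only [this, if_false, if_true]
        omega
      · by_cases hb : a = 2 * j + 3
        · subst hb
          simp only [ha, if_false, if_true]
          omega
        · simp [ha, hb]
  set b := ((range (L - 1)).filter fun i => 2 * i + 3 ∈ p.parts).card with hb
  have s2 : ∑ j ∈ range (L - 1), ∑ i ∈ range j,
        (if ({2 * i + 3, 2 * j + 3} : Multiset ℕ) ≤ p.parts then 1 else 0) = b.choose 2 := by
    rw [hb, ← pairs_count]
    refine Finset.sum_congr rfl fun j _ => Finset.sum_congr rfl fun i hi => ?_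
    rw [Finset.mem_range] at hi
    simp only [e2 i j hi]
  have hb2 : b ≤ (p.parts.toFinset.filter fun v => 2 ≤ v ∧ v - 1 ∉ p.parts).card := by
    rw [hb]
    refine Finset.card_le_card_of_injOn (fun i => 2 * i + 3) ?_ ?_
    · intro i hi
      rw [coe_filter] at hi ⊢
      refine ⟨Multiset.mem_toFinset.2 hi.2, by dsimp only; omega, fun h => ?_⟩
      obtain ⟨⟨k, hk⟩, -⟩ := hp _ h
      dsimp only at hk
      omega
    · intro i _ j _ hij
      simp only at hij
      omega
  rw [s2, hooks2_eq]
  by_cases h1 : 2 ≤ p.parts.count 1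
  · have s1 : ∑ i ∈ range (L - 1),
        (if ({1, 1, 2 * i + 3} : Multiset ℕ) ≤ p.parts then 1 else 0) = b := by
      rw [hb, Finset.card_filter]
      refine Finset.sum_congr rfl fun i _ => ?_
      simp only [e1 i, h1, true_and]
    have ha : 1 ≤ (p.parts.toFinset.filter fun v => 2 ≤ p.parts.count v).card := by
      rw [Nat.one_le_iff_ne_zero, Finset.card_ne_zero]
      refine ⟨1, ?_⟩
      rw [mem_filter, Multiset.mem_toFinset, ← Multiset.count_pos]
      exact ⟨by omega, h1⟩
    rw [s1]
    have h3 : b + b.choose 2 = (1 + b).choose 2 := by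
      rw [add_comm 1 b, Nat.choose_succ_succ' _ 1, Nat.choose_one_right]
    rw [h3]
    exact Nat.choose_le_choose _ (by omega)
  · have s1 : ∑ i ∈ range (L - 1),
        (if ({1, 1, 2 * i + 3} : Multiset ℕ) ≤ p.parts then 1 else 0) = 0 := by
      refine Finset.sum_eq_zero fun i _ => ?_
      simp only [e1 i, h1, false_and, if_false]
    rw [s1, zero_add]
    exact Nat.choose_le_choose _ (by omega)

theorem A_lower (L n : ℕ) :
    coeff n (P L * (∑ i ∈ range (L - 1), X ^ (2 * i + 5) +
      ∑ j ∈ range (L - 1), ∑ i ∈ range j, X ^ (2 * i + 2 * j + 6))) ≤ (A L n : ℚ) := by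
  have h1 : ∀ i ∈ range (L - 1), coeff n (P L * X ^ (2 * i + 5)) =
      ∑ p ∈ oddP L n, (if ({1, 1, 2 * i + 3} : Multiset ℕ) ≤ p.parts then (1 : ℚ) else 0) := by
    intro i hi
    rw [Finset.mem_range] at hi
    have := coeff_P_mul L n {1, 1, 2 * i + 3} (by
      intro x hx
      simp only [Multiset.insert_eq_cons, Multiset.mem_cons, Multiset.mem_singleton] at hx
      rcases hx with rfl | rfl | rfl
      · exact ⟨odd_one, by omega⟩
      · exact ⟨odd_one, by omega⟩
      · exact ⟨⟨i + 1, by ring⟩, by omega⟩)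
    have hs : ({1, 1, 2 * i + 3} : Multiset ℕ).sum = 2 * i + 5 := by
      simp only [Multiset.insert_eq_cons, Multiset.sum_cons, Multiset.sum_singleton]
      ring
    rw [hs] at this
    rw [this, Finset.card_filter]
    push_cast
    rfl
  have h2 : ∀ j ∈ range (L - 1), ∀ i ∈ range j, coeff n (P L * X ^ (2 * i + 2 * j + 6)) =
      ∑ p ∈ oddP L n, (if ({2 * i + 3, 2 * j + 3} : Multiset ℕ) ≤ p.parts
        then (1 : ℚ) else 0) := by
    intro j hj i hi
    rw [Finset.mem_range] at hi hj
    have := coeff_P_mul L n {2 * i + 3, 2 * j + 3} (by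
      intro x hx
      simp only [Multiset.insert_eq_cons, Multiset.mem_cons, Multiset.mem_singleton] at hx
      rcases hx with rfl | rfl
      · exact ⟨⟨i + 1, by ring⟩, by omega⟩
      · exact ⟨⟨j + 1, by ring⟩, by omega⟩)
    have hs : ({2 * i + 3, 2 * j + 3} : Multiset ℕ).sum = 2 * i + 2 * j + 6 := by
      simp only [Multiset.insert_eq_cons, Multiset.sum_cons, Multiset.sum_singleton]
      ring
    rw [hs] at this
    rw [this, Finset.card_filter]
    push_cast
    rfl
  have h3 : coeff n (P L * (∑ i ∈ range (L - 1), X ^ (2 * i + 5) +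
      ∑ j ∈ range (L - 1), ∑ i ∈ range j, X ^ (2 * i + 2 * j + 6))) =
      ∑ p ∈ oddP L n, ((∑ i ∈ range (L - 1),
          (if ({1, 1, 2 * i + 3} : Multiset ℕ) ≤ p.parts then (1 : ℚ) else 0)) +
        ∑ j ∈ range (L - 1), ∑ i ∈ range j,
          (if ({2 * i + 3, 2 * j + 3} : Multiset ℕ) ≤ p.parts then (1 : ℚ) else 0)) := by
    rw [mul_add, map_add, Finset.mul_sum, map_sum, Finset.mul_sum, map_sum,
      Finset.sum_add_distrib, Finset.sum_congr rfl h1, Finset.sum_comm]
    congr 1
    rw [Finset.sum_comm (s := oddP L n)]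
    refine Finset.sum_congr rfl fun j hj => ?_
    rw [Finset.mul_sum, map_sum, Finset.sum_congr rfl (h2 j hj), Finset.sum_comm]
  rw [h3, A_eq]
  push_cast
  refine Finset.sum_le_sum fun p hp => ?_
  have := hooks2_lower L n p hp
  exact_mod_cast this

/-! ### The distinct side -/

/-- The number of `v ≥ 2` in `S` with `v - 1` not in `S`. -/
def hS (S : Finset ℕ) : ℕ := (S.filter fun v => 2 ≤ v ∧ v - 1 ∉ S).card

/-- `∑_{S ⊆ [1,L]} C(h(S), k) X^{ΣS}`. -/
noncomputable def F (k L : ℕ) : PowerSeries ℚ :=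
  ∑ S ∈ (Icc 1 L).powerset, ((hS S).choose k : PowerSeries ℚ) * X ^ (∑ x ∈ S, x)

theorem B_le (L n : ℕ) : (B L n : ℚ) ≤ coeff n (F 2 L) := by
  have h1 : coeff n (F 2 L) = ∑ S ∈ (Icc 1 L).powerset.filter (fun S => ∑ x ∈ S, x = n),
      ((hS S).choose 2 : ℚ) := by
    unfold F
    rw [map_sum, Finset.sum_filter]
    refine Finset.sum_congr rfl fun S _ => ?_
    have : ((hS S).choose 2 : PowerSeries ℚ) = C ((hS S).choose 2 : ℚ) := by
      rw [map_natCast]
    rw [this, coeff_C_mul, coeff_X_pow]
    by_cases h : ∑ x ∈ S, x = n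
    · rw [if_pos h, if_pos h.symm, mul_one]
    · rw [if_neg h, if_neg (Ne.symm h), mul_zero]
  rw [h1, B_eq]
  push_cast
  have h2 : ∑ p ∈ distP L n, ((hooks2 p).choose 2 : ℚ) =
      ∑ p ∈ distP L n, ((hS p.parts.toFinset).choose 2 : ℚ) := by
    refine Finset.sum_congr rfl fun p hp => ?_
    unfold distP at hp
    rw [mem_filter] at hp
    have h3 : hooks2 p = hS p.parts.toFinset := by
      rw [hooks2_eq]
      have h4 : (p.parts.toFinset.filter fun v => 2 ≤ p.parts.count v) = ∅ := by
        rw [Finset.filter_eq_empty_iff]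
        intro v _
        have := Multiset.nodup_iff_count_le_one.1 hp.2.1 v
        omega
      rw [h4, Finset.card_empty, zero_add]
      unfold hS
      simp only [Multiset.mem_toFinset]
    rw [h3]
  have h5 : ∑ p ∈ distP L n, ((hS p.parts.toFinset).choose 2 : ℚ) =
      ∑ S ∈ (distP L n).image (fun p => p.parts.toFinset), ((hS S).choose 2 : ℚ) := by
    rw [Finset.sum_image]
    intro p hp q hq hpq
    unfold distP at hp hq
    rw [coe_filter] at hp hq
    refine Nat.Partition.ext ?_
    have h6 := congrArg Finset.val hpq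
    simp only [Multiset.toFinset_val] at h6
    rwa [Multiset.Nodup.dedup hp.2.1, Multiset.Nodup.dedup hq.2.1] at h6
  rw [h2, h5]
  refine Finset.sum_le_sum_of_subset_of_nonneg ?_ fun _ _ _ => by positivity
  intro S hS'
  rw [mem_image] at hS'
  obtain ⟨p, hp, rfl⟩ := hS'
  unfold distP at hp
  rw [mem_filter] at hp
  rw [mem_filter, mem_powerset]
  refine ⟨fun x hx => ?_, ?_⟩
  · rw [Multiset.mem_toFinset] at hx
    rw [mem_Icc]
    exact ⟨p.parts_pos hx, hp.2.2 x hx⟩
  · have h7 : ∑ x ∈ p.parts.toFinset, x = p.parts.dedup.sum := by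
      rw [Finset.sum_eq_multiset_sum, Multiset.toFinset_val, Multiset.map_id']
    rw [h7, Multiset.Nodup.dedup hp.2.1, p.parts_sum]

theorem hS_insert (L : ℕ) (S : Finset ℕ) (hS' : S ⊆ Icc 1 (L + 1)) :
    hS (insert (L + 2) S) = hS S + if L + 1 ∈ S then 0 else 1 := by
  have h0 : L + 2 ∉ S := by
    intro h
    have := hS' h
    rw [mem_Icc] at this
    omega
  have h1 : (insert (L + 2) S).filter (fun v => 2 ≤ v ∧ v - 1 ∉ insert (L + 2) S) =
      if L + 1 ∈ S then S.filter (fun v => 2 ≤ v ∧ v - 1 ∉ S) else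
        insert (L + 2) (S.filter (fun v => 2 ≤ v ∧ v - 1 ∉ S)) := by
    have h2 : S.filter (fun v => 2 ≤ v ∧ v - 1 ∉ insert (L + 2) S) =
        S.filter (fun v => 2 ≤ v ∧ v - 1 ∉ S) := by
      refine Finset.filter_congr fun v hv => ?_
      have h3 := hS' hv
      rw [mem_Icc] at h3
      have h4 : v - 1 ≠ L + 2 := by omega
      simp [Finset.mem_insert, h4]
    rw [Finset.filter_insert, h2]
    have h5 : (2 ≤ L + 2 ∧ L + 2 - 1 ∉ insert (L + 2) S) ↔ L + 1 ∉ S := by
      have h6 : L + 2 - 1 = L + 1 := by omega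
      rw [h6]
      have h7 : L + 1 ≠ L + 2 := by omega
      simp [Finset.mem_insert]
    by_cases h : L + 1 ∈ S
    · rw [if_neg (by rw [h5]; simpa using h), if_pos h]
    · rw [if_pos (by rw [h5]; exact h), if_neg h]
  unfold hS
  rw [h1]
  split_ifs with h
  · rfl
  · rw [Finset.card_insert_of_notMem]
    intro h8
    exact h0 (Finset.mem_of_mem_filter _ h8)

theorem F_succ (k L : ℕ) : F (k + 1) (L + 2) =
    (1 + X ^ (L + 2)) * F (k + 1) (L + 1) + X ^ (L + 2) * F k L := by
  have hI : Icc 1 (L + 2) = insert (L + 2) (Icc 1 (L + 1)) := by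
    ext x
    simp only [mem_Icc, mem_insert]
    omega
  have hn : L + 2 ∉ Icc 1 (L + 1) := by
    rw [mem_Icc]
    omega
  have h1 : F (k + 1) (L + 2) = F (k + 1) (L + 1) + ∑ S ∈ (Icc 1 (L + 1)).powerset,
      ((hS (insert (L + 2) S)).choose (k + 1) : PowerSeries ℚ) *
        X ^ (∑ x ∈ insert (L + 2) S, x) := by
    unfold F
    rw [hI, Finset.sum_powerset_insert hn]
  have h2 : ∀ S ∈ (Icc 1 (L + 1)).powerset,
      ((hS (insert (L + 2) S)).choose (k + 1) : PowerSeries ℚ) *
        X ^ (∑ x ∈ insert (L + 2) S, x) =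
      X ^ (L + 2) * (((hS S).choose (k + 1) : PowerSeries ℚ) * X ^ (∑ x ∈ S, x)) +
      X ^ (L + 2) * (if L + 1 ∉ S then ((hS S).choose k : PowerSeries ℚ) * X ^ (∑ x ∈ S, x)
        else 0) := by
    intro S hS1
    rw [mem_powerset] at hS1
    have h0 : L + 2 ∉ S := fun h => hn (hS1 h)
    rw [hS_insert L S hS1, Finset.sum_insert h0, pow_add]
    by_cases h : L + 1 ∈ S
    · rw [if_pos h, if_neg (by simpa using h), add_zero]
      ring
    · rw [if_neg h, if_pos h, Nat.choose_succ_succ' (hS S) k]
      push_cast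
      ring
  have h3 : (Icc 1 (L + 1)).powerset.filter (fun S => L + 1 ∉ S) = (Icc 1 L).powerset := by
    ext S
    rw [mem_filter, mem_powerset, mem_powerset]
    constructor
    · rintro ⟨h4, h5⟩ x hx
      have h6 := h4 hx
      rw [mem_Icc] at h6 ⊢
      have h7 : x ≠ L + 1 := by
        rintro rfl
        exact h5 hx
      omega
    · intro h4
      refine ⟨fun x hx => ?_, fun h => ?_⟩
      · have h6 := h4 hx
        rw [mem_Icc] at h6 ⊢
        omega
      · have h6 := h4 h
        rw [mem_Icc] at h6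
        omega
  have h4 : ∑ S ∈ (Icc 1 (L + 1)).powerset,
      (if L + 1 ∉ S then ((hS S).choose k : PowerSeries ℚ) * X ^ (∑ x ∈ S, x) else 0) =
      F k L := by
    rw [← Finset.sum_filter, h3]
    rfl
  rw [h1, Finset.sum_congr rfl h2, Finset.sum_add_distrib, ← Finset.mul_sum, ← Finset.mul_sum,
    h4]
  unfold F
  ring

theorem F_zero (L : ℕ) : F 0 L = pochNeg 1 1 L := by
  unfold F pochNeg
  have h1 := Finset.prod_one_add (R := PowerSeries ℚ) (f := fun i => X ^ i) (Icc 1 L)
  have h2 : ∏ k ∈ range L, (1 + (X : PowerSeries ℚ) ^ (1 + 1 * k)) =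
      ∏ i ∈ Icc 1 L, (1 + X ^ i) := by
    clear h1
    induction L with
    | zero => simp
    | succ L ih =>
      rw [Finset.prod_range_succ, ih, Finset.prod_Icc_succ_top (by omega)]
      congr 3
      ring
  rw [h2, h1]
  refine Finset.sum_congr rfl fun S _ => ?_
  rw [Nat.choose_zero_right, Nat.cast_one, one_mul, Finset.prod_pow_eq_pow_sum]

theorem F_base0 (k : ℕ) : F (k + 1) 0 = 0 := by
  unfold F
  simp [hS]

theorem F_base1 (k : ℕ) : F (k + 1) 1 = 0 := by
  unfold F
  refine Finset.sum_eq_zero fun S hS1 => ?_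
  have h1 : hS S = 0 := by
    unfold hS
    rw [Finset.card_eq_zero, Finset.filter_eq_empty_iff]
    intro v hv
    have h2 := (mem_powerset.1 hS1) hv
    rw [mem_Icc] at h2
    omega
  rw [h1]
  simp

theorem pochNeg_succ (a L : ℕ) : pochNeg a 1 (L + 1) = pochNeg a 1 L * (1 + X ^ (L + a)) := by
  unfold pochNeg
  rw [Finset.prod_range_succ]
  congr 3
  ring

theorem pochNeg_succ' (a L : ℕ) : pochNeg a 1 (L + 1) = (1 + X ^ a) * pochNeg (a + 1) 1 L := by
  unfold pochNeg
  rw [Finset.prod_range_succ', mul_comm]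
  congr 1
  refine Finset.prod_congr rfl fun i _ => ?_
  congr 2
  ring

theorem F_one (L : ℕ) : F 1 (L + 2) * (1 - X) =
    X ^ 2 * (1 - X ^ (L + 1)) * pochNeg 2 1 L := by
  induction L with
  | zero =>
    have h := F_succ 0 0
    rw [F_base1, F_zero] at h
    rw [h]
    simp [pochNeg]
  | succ L ih =>
    have h := F_succ 0 (L + 1)
    have h0 : F 0 (L + 1) = (1 + X) * pochNeg 2 1 L := by
      rw [F_zero, pochNeg_succ', pow_one]
    rw [h0] at h
    have e1 : L + 1 + 2 = L + 3 := by ring
    have e2 : L + 1 + 1 = L + 2 := by ring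
    rw [e1, e2] at h
    rw [e1, e2, h, pochNeg_succ]
    have p1 : (X : PowerSeries ℚ) ^ (L + 3) = X ^ L * X ^ 3 := pow_add _ _ _
    have p2 : (X : PowerSeries ℚ) ^ (L + 2) = X ^ L * X ^ 2 := pow_add _ _ _
    have p3 : (X : PowerSeries ℚ) ^ (L + 1) = X ^ L * X := pow_succ _ _
    rw [p3] at ih
    rw [p1, p2]
    linear_combination (1 + X ^ L * X ^ 3) * ih

theorem F_two (L : ℕ) : F 2 (L + 4) * ((1 - X) * (1 - X ^ 2)) =
    X ^ 6 * ((1 - X ^ (L + 1)) * (1 - X ^ (L + 2))) * pochNeg 3 1 L := by
  induction L with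
  | zero =>
    have h1 := F_succ 1 0
    rw [F_base1, F_base0] at h1
    have h2 := F_succ 1 1
    rw [F_base1] at h2
    have h3 := F_succ 1 2
    have h4 := F_one 0
    norm_num at h1 h2 h3 h4
    rw [h1] at h2
    rw [h2] at h3
    norm_num
    have h5 : pochNeg 2 1 0 = 1 := by simp [pochNeg]
    have h6 : pochNeg 3 1 0 = 1 := by simp [pochNeg]
    rw [h3, h6]
    rw [h5] at h4
    linear_combination X ^ 4 * (1 - X ^ 2) * h4
  | succ L ih =>
    have h := F_succ 1 (L + 3)
    have h1 := F_one (L + 1)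
    have e1 : L + 1 + 2 = L + 3 := by ring
    have e2 : L + 1 + 1 = L + 2 := by ring
    have e3 : L + 3 + 2 = L + 5 := by ring
    have e4 : L + 3 + 1 = L + 4 := by ring
    have e5 : L + 1 + 4 = L + 5 := by ring
    rw [e1, e2, pochNeg_succ'] at h1
    rw [e3, e4] at h
    rw [e5, e1, e2, h, pochNeg_succ]
    norm_num at h1
    have p0 : (X : PowerSeries ℚ) ^ (L + 5) = X ^ L * X ^ 5 := pow_add _ _ _
    have p1 : (X : PowerSeries ℚ) ^ (L + 3) = X ^ L * X ^ 3 := pow_add _ _ _
    have p2 : (X : PowerSeries ℚ) ^ (L + 2) = X ^ L * X ^ 2 := pow_add _ _ _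
    have p3 : (X : PowerSeries ℚ) ^ (L + 1) = X ^ L * X := pow_succ _ _
    rw [p2, p3] at ih
    rw [p2] at h1
    rw [p0, p1, p2]
    linear_combination (1 + X ^ L * X ^ 5) * ih + X ^ L * X ^ 5 * (1 - X ^ 2) * h1

theorem F_two_eq (L : ℕ) : F 2 L = X ^ 6 * gauss 1 (L - 2) 2 * pochNeg 3 1 (L - 4) := by
  rcases Nat.lt_or_ge L 4 with h4 | h4
  · have hg : gauss 1 (L - 2) 2 = 0 := by
      unfold gauss
      rw [if_neg (by omega)]
    rw [hg, mul_zero, zero_mul]
    have h1 := F_succ 1 0
    rw [F_base1, F_base0] at h1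
    have h2 := F_succ 1 1
    rw [F_base1] at h2
    norm_num at h1 h2
    rw [h1] at h2
    interval_cases L
    · exact F_base0 1
    · exact F_base1 1
    · exact h1
    · rw [h2]; simp
  · obtain ⟨k, rfl⟩ : ∃ k, L = k + 4 := ⟨L - 4, by omega⟩
    have e1 : k + 4 - 2 = k + 2 := by omega
    rw [e1, Nat.add_sub_cancel]
    have h1 := gauss_two 1 k one_pos
    have h2 := F_two k
    norm_num at h1
    have hne : ((1 - X) * (1 - X ^ 2) : PowerSeries ℚ) ≠ 0 := by
      have h3 := Pool.Agent.Results.MP_acbfbf_co.Inequality.one_sub_ne_zero (a := 1) one_pos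
      rw [pow_one] at h3
      exact mul_ne_zero h3
        (Pool.Agent.Results.MP_acbfbf_co.Inequality.one_sub_ne_zero two_pos)
    refine mul_right_cancel₀ hne ?_
    rw [h2]
    linear_combination (-X ^ 6 * pochNeg 3 1 k) * h1

/-- The pairs of distinct odd numbers. -/
theorem pairs_gauss (N : ℕ) :
    ∑ j ∈ range (N + 2), ∑ i ∈ range j, (X : PowerSeries ℚ) ^ (2 * i + 2 * j) =
      X ^ 2 * gauss 2 (N + 2) 2 := by
  have hne : ((1 - X ^ 2) * (1 - X ^ (2 * 2)) : PowerSeries ℚ) ≠ 0 :=
    mul_ne_zero (Pool.Agent.Results.MP_acbfbf_co.Inequality.one_sub_ne_zero two_pos)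
      (Pool.Agent.Results.MP_acbfbf_co.Inequality.one_sub_ne_zero (by norm_num))
  refine mul_right_cancel₀ hne ?_
  rw [mul_assoc, gauss_two 2 N two_pos]
  induction N with
  | zero =>
    simp [Finset.sum_range_succ]
  | succ N ih =>
    rw [Finset.sum_range_succ, add_mul, ih]
    have hg := Pool.Agent.Results.MP_acbfbf_co.Inequality.geom 2 (N + 2)
    have h1 : ∑ i ∈ range (N + 2), (X : PowerSeries ℚ) ^ (2 * i + 2 * (N + 2)) =
        X ^ (2 * (N + 2)) * ∑ i ∈ range (N + 2), (X : PowerSeries ℚ) ^ (2 * i) := by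
      rw [Finset.mul_sum]
      refine Finset.sum_congr rfl fun i _ => ?_
      rw [← pow_add]
      congr 1
      ring
    rw [h1]
    have p1 : (X : PowerSeries ℚ) ^ (2 * (N + 2)) = X ^ (2 * N) * X ^ 4 := by
      rw [← pow_add]; congr 1
    have p2 : (X : PowerSeries ℚ) ^ (2 * (N + 1)) = X ^ (2 * N) * X ^ 2 := by
      rw [← pow_add]; congr 1
    have p3 : (X : PowerSeries ℚ) ^ (2 * (N + 1 + 2)) = X ^ (2 * N) * X ^ 6 := by
      rw [← pow_add]; congr 1
    rw [p1] at hg
    rw [p1, p2, p3]
    norm_num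
    linear_combination X ^ (2 * N) * X ^ 4 * (1 - X ^ 4) * hg

open Pool.Agent.Results.MP_acbfbf_co.Inequality (Nonneg nonneg_sum nonneg_X_pow nonneg_inv
  nonneg_prod poch_inv geom')

theorem nonneg_W (L : ℕ) :
    Nonneg (∑ j ∈ range (L - 1), ∑ i ∈ range j, (X : PowerSeries ℚ) ^ (2 * i + 2 * j + 6) -
      X ^ 8 * gauss 2 (L - 2) 2) := by
  rcases Nat.lt_or_ge L 4 with h4 | h4
  · have hg : gauss 2 (L - 2) 2 = 0 := by
      unfold gauss
      rw [if_neg (by omega)]
    rw [hg, mul_zero, sub_zero]
    exact nonneg_sum _ _ fun j _ => nonneg_sum _ _ fun i _ => nonneg_X_pow _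
  · obtain ⟨k, rfl⟩ : ∃ k, L = k + 4 := ⟨L - 4, by omega⟩
    have e1 : k + 4 - 2 = k + 2 := by omega
    have e2 : k + 4 - 1 = k + 2 + 1 := by omega
    have h1 : ∑ j ∈ range (k + 2), ∑ i ∈ range j, (X : PowerSeries ℚ) ^ (2 * i + 2 * j + 6) =
        X ^ 6 * ∑ j ∈ range (k + 2), ∑ i ∈ range j, (X : PowerSeries ℚ) ^ (2 * i + 2 * j) := by
      rw [Finset.mul_sum]
      refine Finset.sum_congr rfl fun j _ => ?_
      rw [Finset.mul_sum]
      refine Finset.sum_congr rfl fun i _ => ?_
      rw [← pow_add]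
      congr 1
      ring
    have h2 : ∑ j ∈ range (k + 4 - 1), ∑ i ∈ range j,
        (X : PowerSeries ℚ) ^ (2 * i + 2 * j + 6) - X ^ 8 * gauss 2 (k + 4 - 2) 2 =
        ∑ i ∈ range (k + 2), (X : PowerSeries ℚ) ^ (2 * i + 2 * (k + 2) + 6) := by
      rw [e1, e2, Finset.sum_range_succ, h1, pairs_gauss]
      ring
    rw [h2]
    exact nonneg_sum _ _ fun i _ => nonneg_X_pow _

/-- **MP_d17fc5, Q1.** `A_L(n) ≥ B_L(n)` for every positive integer `L` and every `n`. -/
theorem result (L : ℕ) (hL : 1 ≤ L) (n : ℕ) : B L n ≤ A L n := by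
  have hB := B_le L n
  have hA := A_lower L n
  rw [F_two_eq] at hB
  have hU : Nonneg (P L) := by
    rw [P_eq, poch_inv 1 2 L one_pos]
    exact nonneg_prod _ _ fun i _ => nonneg_inv (by omega)
  have hS : (1 - X ^ (2 * L - 2)) * (1 - X ^ 2 : PowerSeries ℚ)⁻¹ =
      ∑ i ∈ range (L - 1), (X : PowerSeries ℚ) ^ (2 * i) := by
    rw [← geom' 2 (L - 1) two_pos]
    congr 4
    omega
  have h1 : coeff n (X ^ 6 * gauss 1 (L - 2) 2 * pochNeg 3 1 (L - 4)) ≤
      coeff n (X ^ 5 * (P L * (∑ i ∈ range (L - 1), (X : PowerSeries ℚ) ^ (2 * i) +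
        X ^ 3 * gauss 2 (L - 2) 2))) := by
    have e1 : X ^ 6 * gauss 1 (L - 2) 2 * pochNeg 3 1 (L - 4) =
        X ^ 5 * ((X : PowerSeries ℚ) * gauss 1 (L - 2) 2 * pochNeg 3 1 (L - 4)) := by ring
    rw [e1, coeff_X_pow_mul', coeff_X_pow_mul']
    split_ifs with h5
    · rw [P_eq, ← hS]
      exact Pool.Agent.Results.MP_acbfbf_co.Inequality.result L hL (n - 5)
    · exact le_refl _
  have h2 : coeff n (X ^ 5 * (P L * (∑ i ∈ range (L - 1), (X : PowerSeries ℚ) ^ (2 * i) +
        X ^ 3 * gauss 2 (L - 2) 2))) ≤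
      coeff n (P L * (∑ i ∈ range (L - 1), X ^ (2 * i + 5) +
        ∑ j ∈ range (L - 1), ∑ i ∈ range j, X ^ (2 * i + 2 * j + 6))) := by
    have h3 := (hU.mul (nonneg_W L)) n
    have e2 : P L * (∑ i ∈ range (L - 1), X ^ (2 * i + 5) +
        ∑ j ∈ range (L - 1), ∑ i ∈ range j, X ^ (2 * i + 2 * j + 6)) =
        X ^ 5 * (P L * (∑ i ∈ range (L - 1), (X : PowerSeries ℚ) ^ (2 * i) +
        X ^ 3 * gauss 2 (L - 2) 2)) + P L * (∑ j ∈ range (L - 1), ∑ i ∈ range j,
          (X : PowerSeries ℚ) ^ (2 * i + 2 * j + 6) - X ^ 8 * gauss 2 (L - 2) 2) := by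
      have e3 : ∑ i ∈ range (L - 1), (X : PowerSeries ℚ) ^ (2 * i + 5) =
          X ^ 5 * ∑ i ∈ range (L - 1), (X : PowerSeries ℚ) ^ (2 * i) := by
        rw [Finset.mul_sum]
        refine Finset.sum_congr rfl fun i _ => ?_
        rw [← pow_add]
        congr 1
        ring
      rw [e3]
      ring
    rw [e2, map_add]
    linarith
  have h4 : (B L n : ℚ) ≤ A L n := by linarith
  exact_mod_cast h4

end Pool.Agent.Results.MP_d17fc5_co.FullAnswer
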